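import Mathlib

/-!
Principal pivot transforms and principal minors (Tucker's identity), matrices `A` with
`rank (A + Aᴴ) ≤ 1`, and the valuation estimate.
-/

namespace Pool.Agent.Q276.VD

open Matrix Finset

variable {n : ℕ} {K : Type*} [Field K]

/-- the principal minor `A_S`. -/
def pm (A : Matrix (Fin n) (Fin n) K) (S : Finset (Fin n)) : K :=
  (A.submatrix (fun i : S => (i : Fin n)) (fun i : S => (i : Fin n))).det

/-- rows in `S` from `A`, the other rows from `B`. -/
def mix (S : Finset (Fin n)) (A B : Matrix (Fin n) (Fin n) K) : Matrix (Fin n) (Fin n) K :=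
  fun i j => if i ∈ S then A i j else B i j

lemma det_mix (S : Finset (Fin n)) (A : Matrix (Fin n) (Fin n) K) :
    (mix S A 1).det = pm A S := by
  have h := Matrix.twoBlockTriangular_det (mix S A 1) (fun i => i ∈ S) (by
    intro i hi j hj
    simp only [mix, if_neg hi]
    rw [Matrix.one_apply, if_neg]
    rintro rfl
    exact hi hj)
  have h2 : ((mix S A 1).toSquareBlockProp fun i => ¬ (i ∈ S)) = 1 := by
    ext i j
    have hi : (i : Fin n) ∉ S := i.2
    have e : (mix S A 1) (i : Fin n) (j : Fin n) = (1 : Matrix (Fin n) (Fin n) K) i j := by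
      simp only [mix, if_neg hi]
    refine e.trans ?_
    rw [Matrix.one_apply, Matrix.one_apply]
    by_cases h : i = j
    · simp [h]
    · rw [if_neg h, if_neg (fun h' => h (Subtype.ext h'))]
  rw [h2, Matrix.det_one, mul_one] at h
  refine h.trans ?_
  unfold pm
  have e2 : ((mix S A 1).toSquareBlockProp fun i => i ∈ S) =
      A.submatrix (fun i : S => (i : Fin n)) (fun i : S => (i : Fin n)) := by
    ext i j
    have hi : (i : Fin n) ∈ S := i.2
    change (mix S A 1) (i : Fin n) (j : Fin n) = A i j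
    simp only [mix, if_pos hi]
  refine Eq.trans ?_ (congrArg (fun M : Matrix S S K => M.det) e2)
  have e3 : (Subtype.fintype fun i : Fin n => i ∈ S) = Finset.Subtype.fintype S :=
    Subsingleton.elim _ _
  rw [e3]

lemma mix_mul (S : Finset (Fin n)) (A B M : Matrix (Fin n) (Fin n) K) :
    mix S A B * M = mix S (A * M) (B * M) := by
  ext i j
  simp only [Matrix.mul_apply, mix]
  split_ifs with h <;> rfl

/-- the principal pivot transform. -/
noncomputable def ppt (S : Finset (Fin n)) (A : Matrix (Fin n) (Fin n) K) :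
    Matrix (Fin n) (Fin n) K := mix S 1 A * (mix S A 1)⁻¹

lemma ppt_mul (S : Finset (Fin n)) (A : Matrix (Fin n) (Fin n) K) (hS : pm A S ≠ 0) :
    ppt S A * mix S A 1 = mix S 1 A := by
  have hu : IsUnit (mix S A 1).det := by rw [det_mix]; exact hS.isUnit
  unfold ppt
  rw [Matrix.mul_assoc, Matrix.nonsing_inv_mul _ hu, Matrix.mul_one]

/-- Tucker's identity. -/
lemma tucker (S U : Finset (Fin n)) (A : Matrix (Fin n) (Fin n) K) (hS : pm A S ≠ 0) :
    pm (ppt S A) U * pm A S = pm A (symmDiff S U) := by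
  rw [← det_mix U, ← det_mix S, ← Matrix.det_mul, mix_mul, ppt_mul S A hS, Matrix.one_mul,
    ← det_mix]
  congr 1
  ext i j
  simp only [mix, Finset.mem_symmDiff]
  by_cases h1 : i ∈ S <;> by_cases h2 : i ∈ U <;> simp [h1, h2]

variable [StarRing K]

lemma herm_ppt (S : Finset (Fin n)) (A : Matrix (Fin n) (Fin n) K) (hS : pm A S ≠ 0) :
    ppt S A + (ppt S A)ᴴ = ((mix S A 1)⁻¹)ᴴ * (A + Aᴴ) * (mix S A 1)⁻¹ := by
  have hu : IsUnit (mix S A 1).det := by rw [det_mix]; exact hS.isUnit
  have key : (mix S A 1)ᴴ * (mix S 1 A) + (mix S 1 A)ᴴ * (mix S A 1) = A + Aᴴ := by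
    ext i j
    simp only [Matrix.add_apply, Matrix.mul_apply, Matrix.conjTranspose_apply, mix]
    rw [← Finset.sum_add_distrib]
    have e : ∀ k : Fin n, (star (if k ∈ S then A k i else (1 : Matrix (Fin n) (Fin n) K) k i) *
        (if k ∈ S then (1 : Matrix (Fin n) (Fin n) K) k j else A k j) +
        star (if k ∈ S then (1 : Matrix (Fin n) (Fin n) K) k i else A k i) *
        (if k ∈ S then A k j else (1 : Matrix (Fin n) (Fin n) K) k j)) =
        (if k = i then A k j else 0) + (if k = j then star (A k i) else 0) := by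
      intro k
      by_cases hk : k ∈ S
      · simp only [if_pos hk, Matrix.one_apply]
        split_ifs <;> simp [add_comm]
      · simp only [if_neg hk, Matrix.one_apply]
        split_ifs <;> simp
    rw [Finset.sum_congr rfl (fun k _ => e k), Finset.sum_add_distrib]
    simp
  have h1 : (mix S A 1) * (mix S A 1)⁻¹ = 1 := Matrix.mul_nonsing_inv _ hu
  have h2 : ((mix S A 1)⁻¹)ᴴ * (mix S A 1)ᴴ = 1 := by
    rw [← Matrix.conjTranspose_mul, h1, Matrix.conjTranspose_one]
  rw [← key, Matrix.mul_add, Matrix.add_mul]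
  congr 1
  · rw [← Matrix.mul_assoc, h2, Matrix.one_mul]; rfl
  · rw [← Matrix.mul_assoc, Matrix.mul_assoc _ (mix S A 1), h1, Matrix.mul_one]
    unfold ppt
    rw [Matrix.conjTranspose_mul]

lemma rank_ppt (S : Finset (Fin n)) (A : Matrix (Fin n) (Fin n) K) (hS : pm A S ≠ 0)
    (hA : (A + Aᴴ).rank ≤ 1) : (ppt S A + (ppt S A)ᴴ).rank ≤ 1 := by
  rw [herm_ppt S A hS]
  exact ((Matrix.rank_mul_le_left _ _).trans (Matrix.rank_mul_le_right _ _)).trans hA

omit [StarRing K] in
lemma minor_of_rank (H : Matrix (Fin n) (Fin n) K) (hH : H.rank ≤ 1) (i j : Fin n) :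
    H i i * H j j = H i j * H j i := by
  by_contra hne
  have hd : (H.submatrix ![i, j] ![i, j]).det ≠ 0 := by
    rw [Matrix.det_fin_two]
    simp only [Matrix.submatrix_apply, Matrix.cons_val_zero, Matrix.cons_val_one]
    exact sub_ne_zero.2 hne
  have h1 : (H.submatrix ![i, j] ![i, j]).rank = 2 := by
    have := Matrix.rank_of_isUnit (H.submatrix ![i, j] ![i, j])
      ((Matrix.isUnit_iff_isUnit_det _).2 hd.isUnit)
    simpa using this
  have h2 := Matrix.rank_submatrix_le H ![i, j] ![i, j]
  omega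

omit [StarRing K] in
lemma pm_map {m : ℕ} (A : Matrix (Fin n) (Fin n) K) (S : Finset (Fin n)) (f : Fin m ≃ S) :
    pm A S = (A.submatrix (fun k => (f k : Fin n)) (fun k => (f k : Fin n))).det := by
  unfold pm
  rw [← Matrix.det_submatrix_equiv_self f]
  rfl

omit [StarRing K] in
lemma pm_single (A : Matrix (Fin n) (Fin n) K) (i : Fin n) : pm A {i} = A i i := by
  have f : Fin 1 ≃ ({i} : Finset (Fin n)) := by
    refine Fintype.equivOfCardEq ?_
    simp
  rw [pm_map A {i} f, Matrix.det_fin_one]
  have h := Finset.mem_singleton.1 (f 0).2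
  simp only [Matrix.submatrix_apply, h]

omit [StarRing K] in
lemma pm_pair (A : Matrix (Fin n) (Fin n) K) {i j : Fin n} (hij : i ≠ j) :
    pm A {i, j} = A i i * A j j - A i j * A j i := by
  have f : Fin 2 ≃ ({i, j} : Finset (Fin n)) := by
    refine Fintype.equivOfCardEq ?_
    rw [Fintype.card_coe, Finset.card_pair hij]
    simp
  rw [pm_map A {i, j} f, Matrix.det_fin_two]
  simp only [Matrix.submatrix_apply]
  have h0 := Finset.mem_insert.1 (f 0).2
  have h1 := Finset.mem_insert.1 (f 1).2
  simp only [Finset.mem_singleton] at h0 h1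
  have hne : (f 0 : Fin n) ≠ f 1 := by
    intro h
    have := f.injective (Subtype.ext h)
    exact absurd this (by decide)
  rcases h0 with h0 | h0 <;> rcases h1 with h1 | h1
  · exact absurd (h0.trans h1.symm) hne
  · rw [h0, h1]
  · rw [h0, h1]; ring
  · exact absurd (h0.trans h1.symm) hne

end Pool.Agent.Q276.VD
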