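import Pool.Agent.Q276.VD.A1

/-!
If all proper principal minors (of order `1` and `2`) of a matrix `A` with
`rank (A + Aᴴ) ≤ 1` are small, then all entries are small and so is the determinant.
-/

namespace Pool.Agent.Q276.VD

open Matrix Finset

lemma add_lt' {a b : ℝ} {x y : WithTop ℝ} (h1 : (a : WithTop ℝ) < x) (h2 : (b : WithTop ℝ) < y) :
    ((a + b : ℝ) : WithTop ℝ) < x + y := by
  induction x with
  | top => rw [top_add]; exact WithTop.coe_lt_top _
  | coe x =>
    induction y with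
    | top => rw [add_top]; exact WithTop.coe_lt_top _
    | coe y =>
      have h1' : a < x := by exact_mod_cast h1
      have h2' : b < y := by exact_mod_cast h2
      exact_mod_cast add_lt_add h1' h2'

lemma prod_lt {K : Type*} [Field K] (ν : AddValuation K (WithTop ℝ)) {ι : Type*}
    (s : Finset ι) (hs : s.Nonempty) (f : ι → K) (m : ι → ℝ)
    (h : ∀ i ∈ s, ((m i : ℝ) : WithTop ℝ) < ν (f i)) :
    ((∑ i ∈ s, m i : ℝ) : WithTop ℝ) < ν (∏ i ∈ s, f i) := by
  classical
  induction hs using Finset.Nonempty.cons_induction with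
  | singleton a => simpa using h a (by simp)
  | cons a s ha hs ih =>
    rw [Finset.sum_cons, Finset.prod_cons, ν.map_mul]
    exact add_lt' (h a (by simp)) (ih (fun i hi => h i (by simp [hi])))

variable {n : ℕ} {K : Type*} [Field K] [StarRing K]

/-- the entries are small. -/
lemma entry_lt (ν : AddValuation K (WithTop ℝ)) (hν : ∀ a, ν (star a) = ν a)
    (A : Matrix (Fin n) (Fin n) K) (hA : (A + Aᴴ).rank ≤ 1) {i j : Fin n} (hij : i ≠ j)
    (μ : Fin n → ℝ) (hi : ((μ i : ℝ) : WithTop ℝ) < ν (A i i))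
    (hj : ((μ j : ℝ) : WithTop ℝ) < ν (A j j))
    (hp : ((μ i + μ j : ℝ) : WithTop ℝ) < ν (A i i * A j j - A i j * A j i)) :
    (((μ i + μ j) / 2 : ℝ) : WithTop ℝ) < ν (A i j) := by
  by_contra hle
  rw [not_lt] at hle
  -- the diagonal of `H = A + Aᴴ`
  have hH : ∀ k, ((μ k : ℝ) : WithTop ℝ) < ν (A k k) →
      ((μ k : ℝ) : WithTop ℝ) < ν ((A + Aᴴ) k k) := by
    intro k hk
    rw [Matrix.add_apply, Matrix.conjTranspose_apply]
    refine lt_of_lt_of_le (lt_min hk ?_) (ν.map_add _ _)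
    rw [hν]; exact hk
  have hHij : ((μ i + μ j : ℝ) : WithTop ℝ) < ν ((A + Aᴴ) i j) + ν ((A + Aᴴ) i j) := by
    have e1 : ν ((A + Aᴴ) j i) = ν ((A + Aᴴ) i j) := by
      rw [← hν ((A + Aᴴ) j i)]
      congr 1
      rw [Matrix.add_apply, Matrix.add_apply, Matrix.conjTranspose_apply,
        Matrix.conjTranspose_apply, star_add, star_star, add_comm]
    have e2 := congrArg ν (minor_of_rank (A + Aᴴ) hA i j)
    rw [ν.map_mul, ν.map_mul, e1] at e2
    rw [← e2]
    exact add_lt' (hH i hi) (hH j hj)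
  -- `ν (A i j) = r`
  obtain ⟨r, hr⟩ : ∃ r : ℝ, ν (A i j) = (r : WithTop ℝ) := by
    have : ν (A i j) ≠ ⊤ := fun h => by
      rw [h] at hle
      exact absurd (top_le_iff.1 hle) (WithTop.coe_ne_top)
    exact ⟨_, (WithTop.coe_untop _ this).symm⟩
  have hr2 : r ≤ (μ i + μ j) / 2 := by
    rw [hr] at hle
    exact_mod_cast hle
  have hlt : ν (A i j) < ν ((A + Aᴴ) i j) := by
    rw [hr]
    by_contra hcon
    rw [not_lt] at hcon
    obtain ⟨t, ht⟩ : ∃ t : ℝ, ν ((A + Aᴴ) i j) = (t : WithTop ℝ) := by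
      have : ν ((A + Aᴴ) i j) ≠ ⊤ := fun h => by
        rw [h] at hcon
        exact absurd (top_le_iff.1 hcon) (WithTop.coe_ne_top)
      exact ⟨_, (WithTop.coe_untop _ this).symm⟩
    rw [ht] at hHij hcon
    have h1 : t ≤ r := by exact_mod_cast hcon
    have h2 : μ i + μ j < t + t := by exact_mod_cast hHij
    linarith
  have hji : ν (A j i) = (r : WithTop ℝ) := by
    have e3 : star (A j i) = (A + Aᴴ) i j - A i j := by
      rw [Matrix.add_apply, Matrix.conjTranspose_apply]; ring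
    rw [← hν (A j i), e3, ν.map_sub_swap, ν.map_sub_eq_of_lt_left hlt, hr]
  have hprod : ν (A i j * A j i) ≤ ((μ i + μ j : ℝ) : WithTop ℝ) := by
    rw [ν.map_mul, hr, hji]
    have : r + r ≤ μ i + μ j := by linarith
    exact_mod_cast this
  have hprod2 : ((μ i + μ j : ℝ) : WithTop ℝ) < ν (A i j * A j i) := by
    have e4 : A i j * A j i = A i i * A j j - (A i i * A j j - A i j * A j i) := by ring
    rw [e4]
    refine lt_of_lt_of_le (lt_min ?_ hp) (ν.map_sub _ _)
    rw [ν.map_mul]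
    exact add_lt' hi hj
  exact absurd hprod (not_le.2 hprod2)

/-- the determinant is small. -/
lemma det_lt (ν : AddValuation K (WithTop ℝ)) (hν : ∀ a, ν (star a) = ν a)
    (A : Matrix (Fin n) (Fin n) K) (hA : (A + Aᴴ).rank ≤ 1) (μ : Fin n → ℝ)
    (D : Finset (Fin n)) (hD : 3 ≤ D.card)
    (h : ∀ U ⊆ D, U.Nonempty → U ≠ D → ((∑ i ∈ U, μ i : ℝ) : WithTop ℝ) < ν (pm A U)) :
    ((∑ i ∈ D, μ i : ℝ) : WithTop ℝ) < ν (pm A D) := by
  have h1 : ∀ i ∈ D, ((μ i : ℝ) : WithTop ℝ) < ν (A i i) := by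
    intro i hi
    have := h {i} (by simpa using hi) (by simp) (by
      intro e
      rw [← e] at hD
      simp at hD)
    simpa [pm_single] using this
  have h2 : ∀ i ∈ D, ∀ j ∈ D, i ≠ j →
      ((μ i + μ j : ℝ) : WithTop ℝ) < ν (A i i * A j j - A i j * A j i) := by
    intro i hi j hj hij
    have := h {i, j} (by
      intro k hk
      rcases Finset.mem_insert.1 hk with e | e
      · rwa [e]
      · rwa [Finset.mem_singleton.1 e]) (by simp) (by
      intro e
      rw [← e, Finset.card_pair hij] at hD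
      omega)
    rwa [pm_pair A hij, Finset.sum_pair hij] at this
  have h3 : ∀ i ∈ D, ∀ j ∈ D, (((μ i + μ j) / 2 : ℝ) : WithTop ℝ) < ν (A i j) := by
    intro i hi j hj
    by_cases hij : i = j
    · subst hij
      have : (μ i + μ i) / 2 = μ i := by ring
      rw [this]; exact h1 i hi
    · exact entry_lt ν hν A hA hij μ (h1 i hi) (h1 j hj) (h2 i hi j hj hij)
  unfold pm
  rw [Matrix.det_apply]
  refine ν.map_lt_sum (WithTop.coe_ne_top) ?_
  intro σ _
  have h4 : ((∑ i ∈ D, μ i : ℝ) : WithTop ℝ) <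
      ν (∏ i : D, (A.submatrix (fun i : D => (i : Fin n)) (fun i : D => (i : Fin n))) (σ i) i) := by
    have h5 := prod_lt ν (Finset.univ : Finset D) (by
      rw [Finset.univ_nonempty_iff]
      have : D.Nonempty := Finset.card_pos.1 (by omega)
      exact ⟨⟨this.choose, this.choose_spec⟩⟩)
      (fun i : D => (A.submatrix (fun i : D => (i : Fin n)) (fun i : D => (i : Fin n))) (σ i) i)
      (fun i : D => (μ (σ i : Fin n) + μ (i : Fin n)) / 2)
      (fun i _ => h3 (σ i : Fin n) (σ i).2 (i : Fin n) i.2)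
    have h6 : (∑ i : D, (μ (σ i : Fin n) + μ (i : Fin n)) / 2) = ∑ i ∈ D, μ i := by
      rw [← Finset.sum_div, Finset.sum_add_distrib,
        Equiv.sum_comp σ (fun i : D => μ (i : Fin n)), Finset.sum_coe_sort D μ]
      ring
    rw [h6] at h5
    exact h5
  rcases Int.units_eq_one_or (Equiv.Perm.sign σ) with e | e
  · rw [e, one_smul]; exact h4
  · rw [e]
    have : ((-1 : ℤˣ) • ∏ i : D,
        (A.submatrix (fun i : D => (i : Fin n)) (fun i : D => (i : Fin n))) (σ i) i) =
        - ∏ i : D, (A.submatrix (fun i : D => (i : Fin n)) (fun i : D => (i : Fin n))) (σ i) i := by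
      simp
    rw [this, ν.map_neg]; exact h4

end Pool.Agent.Q276.VD
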